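import Pool.Agent.Q289.Chaos.Graph

/-!
# Site disorder chaos on 3-uniform hypergraphs: the correlation of one hyperedge
-/

set_option autoImplicit false

open MeasureTheory ProbabilityTheory Filter
open scoped ENNReal NNReal

namespace Q289.Chaos

/-- assumptions on `q`, the mean of a free spin as a function of the disorder -/
structure Good (q : ℝ → ℝ) : Prop where
  meas : Measurable q
  bound : ∀ x, |q x| ≤ 1
  odd : ∀ x, q (-x) = -q x
  nonneg : ∀ x, 0 < x → 0 ≤ q x
  pos : 0 < volume {x | q x ≠ 0}

variable {q : ℝ → ℝ}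

theorem Good.zero (h : Good q) : q 0 = 0 := by
  have := h.odd 0
  rw [neg_zero] at this
  linarith

theorem Good.nonpos (h : Good q) {x : ℝ} (hx : x < 0) : q x ≤ 0 := by
  have h1 := h.nonneg (-x) (by linarith)
  rw [h.odd] at h1
  linarith

theorem Good.pos' (h : Good q) : 0 < gaussianReal 0 1 {x | q x ≠ 0} := by
  rw [pos_iff_ne_zero]
  intro h0
  have := gaussianReal_absolutelyContinuous' 0 (v := 1) one_ne_zero h0
  exact h.pos.ne' this

theorem Good.int (h : Good q) (μ : Measure ℝ) [IsFiniteMeasure μ] : Integrable q μ :=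
  Integrable.of_bound h.meas.aestronglyMeasurable 1 (Eventually.of_forall fun x => h.bound x)

theorem pdf_lt (m : ℝ) (v : ℝ≥0) (hv : v ≠ 0) (u : ℝ) (h : 0 < u * m) :
    gaussianPDFReal m v (-u) < gaussianPDFReal m v u := by
  unfold gaussianPDFReal
  have hv' : (0 : ℝ) < v := by positivity
  refine mul_lt_mul_of_pos_left ?_ (by positivity)
  refine Real.exp_lt_exp.2 ?_
  rw [div_lt_div_iff_of_pos_right (by positivity)]
  nlinarith

theorem pdf_symm (m : ℝ) (v : ℝ≥0) (u : ℝ) (hm : m = 0 ∨ u = 0) :
    gaussianPDFReal m v (-u) = gaussianPDFReal m v u := by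
  unfold gaussianPDFReal
  congr 3
  rcases hm with rfl | rfl <;> ring

/-- the smoothed function -/
theorem smooth_id (h : Good q) (m : ℝ) (v : ℝ≥0) (hv : v ≠ 0) :
    Integrable (fun u => (gaussianPDFReal m v u - gaussianPDFReal m v (-u)) * q u) ∧
    2 * ∫ u, q u ∂(gaussianReal m v) =
      ∫ u, (gaussianPDFReal m v u - gaussianPDFReal m v (-u)) * q u := by
  have i1 : Integrable (fun u => gaussianPDFReal m v u * q u) := by
    refine Integrable.mul_bdd (c := 1) (integrable_gaussianPDFReal m v) ?_ ?_
    · exact h.meas.aestronglyMeasurable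
    · exact Eventually.of_forall fun u => h.bound u
  have i2 : Integrable (fun u => gaussianPDFReal m v (-u) * q u) := by
    have := i1.comp_neg
    refine this.neg.congr (Eventually.of_forall fun u => ?_)
    simp only [Pi.neg_apply]
    rw [h.odd]
    ring
  have e1 : ∫ u, q u ∂(gaussianReal m v) = ∫ u, gaussianPDFReal m v u * q u := by
    rw [integral_gaussianReal_eq_integral_smul hv]
    rfl
  have e2 : ∫ u, gaussianPDFReal m v u * q u = -∫ u, gaussianPDFReal m v (-u) * q u := by
    rw [← integral_neg_eq_self (fun u => gaussianPDFReal m v u * q u), ← integral_neg]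
    refine integral_congr_ae (Eventually.of_forall fun u => ?_)
    simp only
    rw [h.odd]
    ring
  have e3 : (fun u => (gaussianPDFReal m v u - gaussianPDFReal m v (-u)) * q u) =
      fun u => gaussianPDFReal m v u * q u - gaussianPDFReal m v (-u) * q u := by
    funext u; ring
  rw [e3]
  refine ⟨i1.sub i2, ?_⟩
  rw [integral_sub i1 i2, e1]
  linarith

theorem smooth_pos (h : Good q) (m : ℝ) (v : ℝ≥0) (hv : v ≠ 0) (hm : 0 < m) :
    0 < ∫ u, q u ∂(gaussianReal m v) := by
  obtain ⟨hi, he⟩ := smooth_id h m v hv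
  have hnn : ∀ u, 0 ≤ (gaussianPDFReal m v u - gaussianPDFReal m v (-u)) * q u := by
    intro u
    rcases lt_trichotomy u 0 with hu | hu | hu
    · have h1 := pdf_lt m v hv (-u) (by nlinarith)
      rw [neg_neg] at h1
      exact mul_nonneg_of_nonpos_of_nonpos (by linarith) (h.nonpos hu)
    · rw [pdf_symm m v u (Or.inr hu), sub_self, zero_mul]
    · have h1 := pdf_lt m v hv u (by nlinarith)
      exact mul_nonneg (by linarith) (h.nonneg u hu)
  have hpos : 0 < ∫ u, (gaussianPDFReal m v u - gaussianPDFReal m v (-u)) * q u := by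
    rw [integral_pos_iff_support_of_nonneg hnn hi]
    refine lt_of_lt_of_le h.pos (measure_mono ?_)
    intro u hu
    have hu0 : u ≠ 0 := by
      rintro rfl
      exact hu h.zero
    rw [Function.mem_support]
    refine mul_ne_zero ?_ hu
    rcases lt_or_gt_of_ne hu0 with h1 | h1
    · have h2 := pdf_lt m v hv (-u) (by nlinarith)
      rw [neg_neg] at h2
      linarith
    · have h2 := pdf_lt m v hv u (by nlinarith)
      linarith
  linarith

theorem smooth_odd (h : Good q) (m : ℝ) (v : ℝ≥0) :
    ∫ u, q u ∂(gaussianReal (-m) v) = -∫ u, q u ∂(gaussianReal m v) := by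
  rw [← gaussianReal_map_neg, integral_map (by fun_prop) h.meas.aestronglyMeasurable,
    ← integral_neg]
  refine integral_congr_ae (Eventually.of_forall fun u => ?_)
  exact h.odd u

theorem smooth_zero (h : Good q) (v : ℝ≥0) : ∫ u, q u ∂(gaussianReal 0 v) = 0 := by
  have := smooth_odd h 0 v
  rw [neg_zero] at this
  linarith

theorem affine_law (h : Good q) (c s x : ℝ) : ∫ y, q (c * x + s * y) ∂(gaussianReal 0 1) =
    ∫ u, q u ∂(gaussianReal (c * x) (.mk (s ^ 2) (sq_nonneg _) * 1)) := by
  have h1 : (gaussianReal 0 1).map (fun y => c * x + s * y) =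
      gaussianReal (c * x) (.mk (s ^ 2) (sq_nonneg _) * 1) := by
    have : (fun y : ℝ => c * x + s * y) = (fun y => c * x + y) ∘ (fun y => s * y) := rfl
    rw [this, ← Measure.map_map (by fun_prop) (by fun_prop), gaussianReal_map_const_mul,
      gaussianReal_map_const_add]
    congr 1
    ring
  rw [← h1, integral_map (by fun_prop) h.meas.aestronglyMeasurable]

/-- the correlation of `q` under the continuous perturbation -/
theorem corr_pos (h : Good q) (c s : ℝ) (hc : 0 < c) (hcs : s = 0 → c = 1) :
    Integrable (fun x => q x * ∫ y, q (c * x + s * y) ∂(gaussianReal 0 1)) (gaussianReal 0 1) ∧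
    0 < ∫ x, q x * ∫ y, q (c * x + s * y) ∂(gaussianReal 0 1) ∂(gaussianReal 0 1) := by
  have hint : Integrable (fun x => q x * ∫ y, q (c * x + s * y) ∂(gaussianReal 0 1))
      (gaussianReal 0 1) := by
    have h1 : Integrable (fun p : ℝ × ℝ => q p.1 * q (c * p.1 + s * p.2))
        ((gaussianReal 0 1).prod (gaussianReal 0 1)) := by
      have hm : Measurable (fun p : ℝ × ℝ => q p.1 * q (c * p.1 + s * p.2)) :=
        (h.meas.comp measurable_fst).mul (h.meas.comp (by fun_prop))
      refine Integrable.of_bound hm.aestronglyMeasurable 1 (Eventually.of_forall fun p => ?_)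
      rw [norm_mul]
      calc ‖q p.1‖ * ‖q (c * p.1 + s * p.2)‖ ≤ 1 * 1 :=
            mul_le_mul (h.bound _) (h.bound _) (norm_nonneg _) zero_le_one
        _ = 1 := one_mul 1
    refine h1.integral_prod_left.congr (Eventually.of_forall fun x => ?_)
    simp only
    rw [integral_const_mul]
  refine ⟨hint, ?_⟩
  have hnn : ∀ x, 0 ≤ q x * ∫ y, q (c * x + s * y) ∂(gaussianReal 0 1) ∧
      (q x ≠ 0 → q x * ∫ y, q (c * x + s * y) ∂(gaussianReal 0 1) ≠ 0) := by
    intro x
    by_cases hs : s = 0
    · have hc1 := hcs hs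
      have : ∫ y, q (c * x + s * y) ∂(gaussianReal 0 1) = q x := by
        simp only [hs, hc1, zero_mul, add_zero, one_mul]
        simp
      rw [this]
      exact ⟨mul_self_nonneg _, fun hq => mul_self_ne_zero.2 hq⟩
    · have hv : (.mk (s ^ 2) (sq_nonneg _) * 1 : ℝ≥0) ≠ 0 := by
        rw [mul_one]
        intro h0
        have : s ^ 2 = 0 := congrArg (fun z : ℝ≥0 => (z : ℝ)) h0
        exact hs (pow_eq_zero_iff two_ne_zero |>.1 this)
      rw [affine_law h]
      rcases lt_trichotomy x 0 with hx | hx | hx
      · have h1 := smooth_pos h (c * (-x)) _ hv (by nlinarith)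
        have h2 : ∫ u, q u ∂(gaussianReal (c * x) (.mk (s ^ 2) (sq_nonneg _) * 1)) =
            -∫ u, q u ∂(gaussianReal (c * (-x)) (.mk (s ^ 2) (sq_nonneg _) * 1)) := by
          rw [← smooth_odd h]
          congr 2
          ring
        rw [h2]
        refine ⟨?_, fun hq => mul_ne_zero hq (by linarith)⟩
        exact mul_nonneg_of_nonpos_of_nonpos (h.nonpos hx) (by linarith)
      · subst hx
        refine ⟨by rw [h.zero, zero_mul], fun hq => absurd h.zero hq⟩
      · have h1 := smooth_pos h (c * x) _ hv (by positivity)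
        exact ⟨mul_nonneg (h.nonneg x hx) h1.le, fun hq => mul_ne_zero hq h1.ne'⟩
  rw [integral_pos_iff_support_of_nonneg (fun x => (hnn x).1) hint]
  refine lt_of_lt_of_le h.pos' (measure_mono ?_)
  intro x hx
  exact (hnn x).2 hx

/-- integrals over the law of the data of one hyperedge -/
theorem edge_prob (t : ℝ) (ht : 0 ≤ t) : IsProbabilityMeasure
    (ENNReal.ofReal (Real.exp (-t)) • Measure.dirac true +
      ENNReal.ofReal (1 - Real.exp (-t)) • Measure.dirac false : Measure Bool) := by
  have h1 : Real.exp (-t) ≤ 1 := Real.exp_le_one_iff.2 (by linarith)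
  refine ⟨?_⟩
  rw [Measure.add_apply, Measure.smul_apply, Measure.smul_apply, measure_univ, measure_univ,
    smul_eq_mul, smul_eq_mul, mul_one, mul_one, ← ENNReal.ofReal_add (Real.exp_pos _).le
    (by linarith)]
  simp

theorem edgeLaw_prob (t : ℝ) (ht : 0 ≤ t) : IsProbabilityMeasure (edgeLaw t) := by
  have := edge_prob t ht
  unfold edgeLaw
  infer_instance

theorem bool_integral (t : ℝ) (ht : 0 ≤ t) (F : Bool → ℝ) :
    ∫ b, F b ∂(ENNReal.ofReal (Real.exp (-t)) • Measure.dirac true +
      ENNReal.ofReal (1 - Real.exp (-t)) • Measure.dirac false : Measure Bool) =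
    Real.exp (-t) * F true + (1 - Real.exp (-t)) * F false := by
  have h1 : Real.exp (-t) ≤ 1 := Real.exp_le_one_iff.2 (by linarith)
  rw [integral_add_measure, integral_smul_measure, integral_smul_measure, integral_dirac,
    integral_dirac, ENNReal.toReal_ofReal (Real.exp_pos _).le, ENNReal.toReal_ofReal
    (by linarith)]
  · rfl
  · exact (integrable_dirac (by simp)).smul_measure ENNReal.ofReal_ne_top
  · exact (integrable_dirac (by simp)).smul_measure ENNReal.ofReal_ne_top

theorem perturb_meas (κ : Kind) (t : ℝ) : Measurable (perturb κ t) := by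
  cases κ
  · unfold perturb; fun_prop
  · unfold perturb
    refine Measurable.ite ?_ (by fun_prop) (by fun_prop)
    exact measurable_snd.comp measurable_snd (measurableSet_singleton true)

/-- the correlation of `q` under a perturbation -/
noncomputable def kap (q : ℝ → ℝ) (κ : Kind) (t : ℝ) : ℝ :=
  ∫ x, q x.1 * q (perturb κ t x) ∂(edgeLaw t)

theorem edge_int (h : Good q) (κ : Kind) (t : ℝ) (ht : 0 ≤ t) :
    Integrable (fun x => q x.1 * q (perturb κ t x)) (edgeLaw t) := by
  have := edgeLaw_prob t ht
  have hm : Measurable (fun x => q x.1 * q (perturb κ t x)) :=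
    (h.meas.comp measurable_fst).mul (h.meas.comp (perturb_meas κ t))
  refine Integrable.of_bound hm.aestronglyMeasurable 1 (Eventually.of_forall fun p => ?_)
  rw [norm_mul]
  calc ‖q p.1‖ * ‖q (perturb κ t p)‖ ≤ 1 * 1 :=
        mul_le_mul (h.bound _) (h.bound _) (norm_nonneg _) zero_le_one
    _ = 1 := one_mul 1

theorem kap_pos (h : Good q) (κ : Kind) (t : ℝ) (ht : 0 ≤ t) : 0 < kap q κ t := by
  have := edge_prob t ht
  have hint := edge_int h κ t ht
  unfold kap
  have hint' := hint
  unfold edgeLaw at hint' ⊢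
  rw [integral_prod _ hint']
  have e1 : ∀ᵐ x ∂(gaussianReal 0 1), ∫ y, q x * q (perturb κ t (x, y))
      ∂((gaussianReal 0 1).prod (ENNReal.ofReal (Real.exp (-t)) • Measure.dirac true +
      ENNReal.ofReal (1 - Real.exp (-t)) • Measure.dirac false)) =
      ∫ y, (Real.exp (-t) * (q x * q (perturb κ t (x, y, true))) +
        (1 - Real.exp (-t)) * (q x * q (perturb κ t (x, y, false)))) ∂(gaussianReal 0 1) := by
    filter_upwards [hint'.prod_right_ae] with x hx
    rw [integral_prod _ hx]
    refine integral_congr_ae (Eventually.of_forall fun y => ?_)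
    exact bool_integral t ht (fun b => q x * q (perturb κ t (x, y, b)))
  rw [integral_congr_ae e1]
  have hexp : 0 < Real.exp (-t) := Real.exp_pos _
  have hexp1 : Real.exp (-t) ≤ 1 := Real.exp_le_one_iff.2 (by linarith)
  cases κ
  · have hpos := corr_pos h (Real.exp (-t)) (Real.sqrt (1 - Real.exp (-2 * t))) hexp (by
      intro h0
      rw [Real.sqrt_eq_zero'] at h0
      have h2 : 1 ≤ Real.exp (-2 * t) := by linarith
      rw [Real.one_le_exp_iff] at h2
      have : t = 0 := by linarith
      rw [this]; simp)
    refine lt_of_lt_of_eq hpos.2 (integral_congr_ae (Eventually.of_forall fun x => ?_))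
    simp only [perturb]
    rw [← integral_const_mul]
    refine integral_congr_ae (Eventually.of_forall fun y => ?_)
    simp only
    ring
  · have e2 : ∀ x, ∫ y, (Real.exp (-t) * (q x * q (perturb Kind.discrete t (x, y, true))) +
        (1 - Real.exp (-t)) * (q x * q (perturb Kind.discrete t (x, y, false))))
        ∂(gaussianReal 0 1) = Real.exp (-t) * (q x * q x) := by
      intro x
      simp only [perturb, if_true, Bool.false_eq_true, if_false]
      have e3 : ∫ a, (1 - Real.exp (-t)) * (q x * q a) ∂(gaussianReal 0 1) = 0 := by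
        rw [integral_const_mul, integral_const_mul, smooth_zero h, mul_zero, mul_zero]
      rw [integral_add (integrable_const _) ((h.int (gaussianReal 0 1)).const_mul _ |>.const_mul _),
        e3, add_zero, integral_const]
      simp
    simp_rw [e2]
    rw [integral_const_mul]
    refine mul_pos hexp ?_
    have hi : Integrable (fun x => q x * q x) (gaussianReal 0 1) := by
      refine Integrable.of_bound (h.meas.mul h.meas).aestronglyMeasurable 1
        (Eventually.of_forall fun x => ?_)
      rw [norm_mul]
      calc ‖q x‖ * ‖q x‖ ≤ 1 * 1 :=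
            mul_le_mul (h.bound _) (h.bound _) (norm_nonneg _) zero_le_one
        _ = 1 := one_mul 1
    rw [integral_pos_iff_support_of_nonneg (fun x => mul_self_nonneg _) hi]
    refine lt_of_lt_of_le h.pos' (measure_mono ?_)
    intro x hx
    exact mul_self_ne_zero.2 hx

end Q289.Chaos
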