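import Mathlib

/-!
# Site disorder chaos on 3-uniform hypergraphs: definitions
-/

set_option autoImplicit false

open MeasureTheory ProbabilityTheory
open scoped ENNReal

namespace Q289.Chaos

/-- the ball `B_r(v)`: the vertex `v` and all vertices joined to `v` by a chain of at most `r`
hyperedges, consecutive hyperedges of the chain having a common vertex -/
def ball {V : Type} [DecidableEq V] (E : Finset (Finset V)) (r : ℕ) (v : V) : Set V :=
  {w | w = v ∨ ∃ (l : List (Finset V)) (h : l ≠ []), l.length ≤ r ∧ (∀ e ∈ l, e ∈ E) ∧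
    l.IsChain (fun e e' => (e ∩ e').Nonempty) ∧ v ∈ l.head h ∧ w ∈ l.getLast h}

/-- polynomial growth of a sequence of hypergraphs on `{0, ..., N - 1}` -/
def PolynomialGrowth (G : ∀ N : ℕ, Finset (Finset (Fin N))) : Prop :=
  ∃ A θ : ℝ, 0 < A ∧ 0 < θ ∧ ∀ (N : ℕ) (i : Fin N) (r : ℕ), 1 ≤ r →
    ((ball (G N) r i).ncard : ℝ) ≤ A * (r : ℝ) ^ θ

/-- the product of the spins over `e` -/
noncomputable def spin {V : Type} (σ : V → ℤˣ) (e : Finset V) : ℝ := ∏ i ∈ e, ((σ i : ℤ) : ℝ)

/-- the Hamiltonian -/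
noncomputable def ham {V : Type} (E : Finset (Finset V)) (ρ : ℝ → ℝ) (J : Finset V → ℝ)
    (σ : V → ℤˣ) : ℝ := ∑ e ∈ E, ρ (J e) * spin σ e

open scoped Classical in
/-- the Gibbs measure with Hamiltonian `H` at inverse temperature `β`; for `β = ∞` it is uniform on
the set of maximisers of `H` -/
noncomputable def gibbs {V : Type} [Fintype V] [DecidableEq V] (β : ℝ≥0∞) (H : (V → ℤˣ) → ℝ) (σ : V → ℤˣ) : ℝ :=
  if β = ∞ then
    (if ∀ τ, H τ ≤ H σ then
      1 / ((Finset.univ.filter (fun σ' : V → ℤˣ => ∀ τ, H τ ≤ H σ')).card : ℝ) else 0)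
  else Real.exp (β.toReal * H σ) / ∑ τ, Real.exp (β.toReal * H τ)

/-- the two perturbations -/
inductive Kind : Type
  | continuous
  | discrete

/-- the perturbed disorder of a hyperedge with data `(J_e, J'_e, B_e)` -/
noncomputable def perturb (κ : Kind) (t : ℝ) (x : ℝ × ℝ × Bool) : ℝ :=
  match κ with
  | .continuous => Real.exp (-t) * x.1 + Real.sqrt (1 - Real.exp (-2 * t)) * x.2.1
  | .discrete => if x.2.2 then x.1 else x.2.1

/-- the law of `(J_e, J'_e, B_e)`: independent, with `J_e` and `J'_e` standard normal and `B_e`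
Bernoulli with parameter `exp (-t)` -/
noncomputable def edgeLaw (t : ℝ) : Measure (ℝ × ℝ × Bool) :=
  (gaussianReal 0 1).prod ((gaussianReal 0 1).prod
    (ENNReal.ofReal (Real.exp (-t)) • Measure.dirac true +
      ENNReal.ofReal (1 - Real.exp (-t)) • Measure.dirac false))

/-- the overlap `R(σ, τ)` -/
noncomputable def overlap {N : ℕ} (σ τ : Fin N → ℤˣ) : ℝ :=
  (∑ i, ((σ i : ℤ) : ℝ) * ((τ i : ℤ) : ℝ)) / N

/-- the expected Gibbs average of the squared overlap; the data of different hyperedges are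
independent -/
noncomputable def meanSq {N : ℕ} (E : Finset (Finset (Fin N))) (ρ : ℝ → ℝ) (κ : Kind) (t : ℝ)
    (β : ℝ≥0∞) : ℝ :=
  ∫ ω : Finset (Fin N) → ℝ × ℝ × Bool,
    ∑ σ, ∑ τ, gibbs β (ham E ρ (fun e => (ω e).1)) σ *
      gibbs β (ham E ρ (fun e => perturb κ t (ω e))) τ * (overlap σ τ) ^ 2
    ∂(Measure.pi fun _ => edgeLaw t)

end Q289.Chaos
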