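import Pool.Agent.Q289.Chaos.Defs

/-!
# Site disorder chaos on 3-uniform hypergraphs: spin flips
-/

set_option autoImplicit false

open scoped ENNReal

namespace Q289.Chaos

variable {V : Type} [Fintype V] [DecidableEq V]

theorem unit_cast_mul (a b : ℤˣ) : (((a * b : ℤˣ) : ℤ) : ℝ) = ((a : ℤ) : ℝ) * ((b : ℤ) : ℝ) := by
  push_cast; rfl

theorem unit_sq (a : ℤˣ) : ((a : ℤ) : ℝ) * ((a : ℤ) : ℝ) = 1 := by
  rcases Int.units_eq_one_or a with h | h <;> simp [h]

theorem unit_pm (a : ℤˣ) : ((a : ℤ) : ℝ) = 1 ∨ ((a : ℤ) : ℝ) = -1 := by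
  rcases Int.units_eq_one_or a with h | h <;> simp [h]

omit [Fintype V] [DecidableEq V] in
theorem spin_mul (x σ : V → ℤˣ) (e : Finset V) : spin (x * σ) e = spin x e * spin σ e := by
  unfold spin
  rw [← Finset.prod_mul_distrib]
  refine Finset.prod_congr rfl fun i _ => ?_
  rw [Pi.mul_apply, unit_cast_mul]

omit [Fintype V] [DecidableEq V] in
theorem spin_pm (σ : V → ℤˣ) (e : Finset V) : spin σ e = 1 ∨ spin σ e = -1 := by
  classical
  unfold spin
  induction e using Finset.induction_on with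
  | empty => left; simp
  | insert a s ha ih =>
    rw [Finset.prod_insert ha]
    rcases unit_pm (σ a) with h | h <;> rcases ih with h' | h' <;> simp [h, h']

omit [Fintype V] [DecidableEq V] in
theorem spin_sq (σ : V → ℤˣ) (e : Finset V) : spin σ e * spin σ e = 1 := by
  rcases spin_pm σ e with h | h <;> rw [h] <;> norm_num

/-- `x` changes the sign of no hyperedge -/
def Inv (E : Finset (Finset V)) (x : V → ℤˣ) : Prop := ∀ e ∈ E, spin x e = 1

/-- `x` changes the sign of the hyperedge `e0` only -/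
def Only (E : Finset (Finset V)) (e0 : Finset V) (x : V → ℤˣ) : Prop :=
  spin x e0 = -1 ∧ ∀ e ∈ E, e ≠ e0 → spin x e = 1

omit [Fintype V] [DecidableEq V] in
theorem ham_inv {E : Finset (Finset V)} {x : V → ℤˣ} (hx : Inv E x) (ρ : ℝ → ℝ)
    (J : Finset V → ℝ) (σ : V → ℤˣ) : ham E ρ J (x * σ) = ham E ρ J σ := by
  unfold ham
  refine Finset.sum_congr rfl fun e he => ?_
  rw [spin_mul, hx e he, one_mul]

omit [Fintype V] in
theorem ham_only {E : Finset (Finset V)} {e0 : Finset V} (he0 : e0 ∈ E) {x : V → ℤˣ}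
    (hx : Only E e0 x) (ρ : ℝ → ℝ) (J : Finset V → ℝ) (σ : V → ℤˣ) :
    ham E ρ J (x * σ) = ham E ρ J σ - 2 * (ρ (J e0) * spin σ e0) := by
  unfold ham
  rw [← Finset.add_sum_erase _ _ he0, ← Finset.add_sum_erase E (fun e => ρ (J e) * spin σ e) he0]
  have : ∑ e ∈ E.erase e0, ρ (J e) * spin (x * σ) e = ∑ e ∈ E.erase e0, ρ (J e) * spin σ e := by
    refine Finset.sum_congr rfl fun e he => ?_
    rw [Finset.mem_erase] at he
    rw [spin_mul, hx.2 e he.2 he.1, one_mul]
  rw [this, spin_mul, hx.1]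
  ring

theorem gibbs_nonneg (β : ℝ≥0∞) (H : (V → ℤˣ) → ℝ) (σ : V → ℤˣ) : 0 ≤ gibbs β H σ := by
  unfold gibbs
  split_ifs
  · positivity
  · exact le_rfl
  · exact div_nonneg (Real.exp_pos _).le (Finset.sum_nonneg fun _ _ => (Real.exp_pos _).le)

theorem gibbs_sum (β : ℝ≥0∞) (H : (V → ℤˣ) → ℝ) : ∑ σ, gibbs β H σ = 1 := by
  classical
  unfold gibbs
  by_cases hβ : β = ∞
  · simp only [hβ, if_true]
    rw [← Finset.sum_filter, Finset.sum_const, nsmul_eq_mul]
    obtain ⟨σ, -, hσ⟩ := Finset.exists_max_image (Finset.univ : Finset (V → ℤˣ)) H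
      Finset.univ_nonempty
    have hpos : 0 < (Finset.univ.filter (fun σ' : V → ℤˣ => ∀ τ, H τ ≤ H σ')).card :=
      Finset.card_pos.2 ⟨σ, by simpa using hσ⟩
    have : (0 : ℝ) < ((Finset.univ.filter (fun σ' : V → ℤˣ => ∀ τ, H τ ≤ H σ')).card : ℝ) := by
      exact_mod_cast hpos
    field_simp
  · simp only [hβ, if_false]
    rw [← Finset.sum_div, div_self]
    exact (Finset.sum_pos (fun _ _ => Real.exp_pos _) Finset.univ_nonempty).ne'

/-- the Gibbs measure is invariant under symmetries of the Hamiltonian -/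
theorem gibbs_inv (β : ℝ≥0∞) (H : (V → ℤˣ) → ℝ) (x σ : V → ℤˣ) (h : H (x * σ) = H σ) :
    gibbs β H (x * σ) = gibbs β H σ := by
  unfold gibbs
  simp only [h]

/-- the function that gives the mean of a free spin -/
noncomputable def free (β : ℝ≥0∞) (r : ℝ) : ℝ :=
  if β = ∞ then SignType.sign r else Real.tanh (β.toReal * r)

theorem sum_flip (x : V → ℤˣ) (F : (V → ℤˣ) → ℝ) : ∑ σ, F (x * σ) = ∑ σ, F σ :=
  Fintype.sum_equiv (Equiv.mulLeft x) _ _ fun _ => rfl

theorem mean_zero {E : Finset (Finset V)} {x : V → ℤˣ} (hx : Inv E x) (β : ℝ≥0∞) (ρ : ℝ → ℝ)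
    (J : Finset V → ℝ) (i : V) (hi : x i = -1) :
    ∑ σ, gibbs β (ham E ρ J) σ * ((σ i : ℤ) : ℝ) = 0 := by
  have h1 := sum_flip x (fun σ => gibbs β (ham E ρ J) σ * ((σ i : ℤ) : ℝ))
  have h2 : ∀ σ : V → ℤˣ, gibbs β (ham E ρ J) (x * σ) * (((x * σ) i : ℤ) : ℝ) =
      -(gibbs β (ham E ρ J) σ * ((σ i : ℤ) : ℝ)) := by
    intro σ
    rw [gibbs_inv β _ x σ (ham_inv hx ρ J σ), Pi.mul_apply, unit_cast_mul, hi]
    push_cast
    ring
  simp only [h2, Finset.sum_neg_distrib] at h1
  linarith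

theorem tanh_id (r s : ℝ) (hs : s = 1 ∨ s = -1) : (Real.exp (r * s) - Real.exp (-(r * s))) * s =
    Real.tanh r * (Real.exp (r * s) + Real.exp (-(r * s))) := by
  have hc : Real.cosh r ≠ 0 := (Real.cosh_pos r).ne'
  have h1 : Real.tanh r * (2 * Real.cosh r) = 2 * Real.sinh r := by
    rw [Real.tanh_eq_sinh_div_cosh]; field_simp
  rw [Real.cosh_eq, Real.sinh_eq] at h1
  rcases hs with rfl | rfl
  · rw [mul_one, mul_one]; linarith
  · rw [show r * (-1 : ℝ) = -r by ring, neg_neg]; linarith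

theorem mean_only {E : Finset (Finset V)} {e0 : Finset V} (he0 : e0 ∈ E) {x : V → ℤˣ}
    (hx : Only E e0 x) (β : ℝ≥0∞) (ρ : ℝ → ℝ) (J : Finset V → ℝ) (F : (V → ℤˣ) → ℝ)
    (hF : ∀ σ, F (x * σ) = F σ) :
    ∑ σ, gibbs β (ham E ρ J) σ * (spin σ e0 * F σ) =
      free β (ρ (J e0)) * ∑ σ, gibbs β (ham E ρ J) σ * F σ := by
  have hspin : ∀ σ : V → ℤˣ, spin (x * σ) e0 = -spin σ e0 := fun σ => by
    rw [spin_mul, hx.1]; ring
  by_cases hβ : β = ∞
  · unfold free
    rw [if_pos hβ]
    by_cases hr : ρ (J e0) = 0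
    · have hinv : ∀ σ : V → ℤˣ, ham E ρ J (x * σ) = ham E ρ J σ := fun σ => by
        rw [ham_only he0 hx, hr]; ring
      have h1 := sum_flip x (fun σ => gibbs β (ham E ρ J) σ * (spin σ e0 * F σ))
      have h2 : ∀ σ : V → ℤˣ, gibbs β (ham E ρ J) (x * σ) * (spin (x * σ) e0 * F (x * σ)) =
          -(gibbs β (ham E ρ J) σ * (spin σ e0 * F σ)) := by
        intro σ
        rw [gibbs_inv β _ x σ (hinv σ), hspin, hF]
        ring
      simp only [h2, Finset.sum_neg_distrib] at h1
      rw [hr]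
      simp only [sign_zero, SignType.coe_zero, zero_mul]
      linarith
    · rw [Finset.mul_sum]
      refine Finset.sum_congr rfl fun σ _ => ?_
      by_cases hmax : ∀ τ, ham E ρ J τ ≤ ham E ρ J σ
      · have h3 := hmax (x * σ)
        rw [ham_only he0 hx] at h3
        have h4 : 0 ≤ ρ (J e0) * spin σ e0 := by linarith
        have h5 : spin σ e0 = SignType.sign (ρ (J e0)) := by
          rcases lt_or_gt_of_ne hr with hneg | hpos
          · rw [sign_neg hneg]
            rcases spin_pm σ e0 with h | h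
            · rw [h] at h4; linarith
            · rw [h]; simp
          · rw [sign_pos hpos]
            rcases spin_pm σ e0 with h | h
            · rw [h]; simp
            · rw [h] at h4; linarith
        rw [h5]; ring
      · have h6 : gibbs β (ham E ρ J) σ = 0 := by
          unfold gibbs
          rw [if_pos hβ, if_neg hmax]
        rw [h6]; ring
  · unfold free
    rw [if_neg hβ]
    set b := β.toReal with hb
    set r := ρ (J e0) with hr
    set Z := ∑ τ, Real.exp (b * ham E ρ J τ) with hZ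
    have hg : ∀ σ, gibbs β (ham E ρ J) σ = Real.exp (b * ham E ρ J σ) / Z := fun σ => by
      unfold gibbs
      rw [if_neg hβ]
    simp only [hg]
    have h1 := sum_flip x (fun σ => Real.exp (b * ham E ρ J σ) / Z * (spin σ e0 * F σ))
    have h2 := sum_flip x (fun σ => Real.exp (b * ham E ρ J σ) / Z * F σ)
    have key : ∀ σ : V → ℤˣ, Real.exp (b * ham E ρ J σ) / Z * (spin σ e0 * F σ) +
        Real.exp (b * ham E ρ J (x * σ)) / Z * (spin (x * σ) e0 * F (x * σ)) =
        Real.tanh (b * r) * (Real.exp (b * ham E ρ J σ) / Z * F σ +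
          Real.exp (b * ham E ρ J (x * σ)) / Z * F (x * σ)) := by
      intro σ
      rw [hspin, hF, ham_only he0 hx]
      have e1 : Real.exp (b * ham E ρ J σ) =
          Real.exp (b * (ham E ρ J σ - r * spin σ e0)) * Real.exp (b * r * spin σ e0) := by
        rw [← Real.exp_add]; congr 1; ring
      have e2 : Real.exp (b * (ham E ρ J σ - 2 * (r * spin σ e0))) =
          Real.exp (b * (ham E ρ J σ - r * spin σ e0)) * Real.exp (-(b * r * spin σ e0)) := by
        rw [← Real.exp_add]; congr 1; ring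
      rw [e1, e2]
      have e3 := tanh_id (b * r) (spin σ e0) (spin_pm σ e0)
      linear_combination (Real.exp (b * (ham E ρ J σ - r * spin σ e0)) / Z * F σ) * e3
    have h3 := Finset.sum_congr rfl (fun σ (_ : σ ∈ (Finset.univ : Finset (V → ℤˣ))) => key σ)
    rw [Finset.sum_add_distrib, h1, ← Finset.mul_sum, Finset.sum_add_distrib, h2] at h3
    linarith

end Q289.Chaos
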