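import Pool.Agent.Q289.Chaos.Flip

/-!
# Site disorder chaos on 3-uniform hypergraphs: the hypergraphs

Blocks of five vertices `v, a, b, c, z` (numbers `5k, ..., 5k+4`), with the hyperedges
`{v, a, b}`, `{v, b, c}`, `{v, a, c}`, and hyperedges `{a, z, a'}` that join consecutive blocks.
-/

set_option autoImplicit false

open scoped ENNReal

namespace Q289.Chaos

/-- the vertices of `e` as natural numbers -/
def nat {N : ℕ} (e : Finset (Fin N)) : Finset ℕ := e.map Fin.valEmbedding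

open scoped Classical in
/-- the hypergraphs -/
noncomputable def G (N : ℕ) : Finset (Finset (Fin N)) :=
  Finset.univ.filter (fun e => ∃ k : ℕ, 5 * k + 4 < N ∧
    (nat e = {5 * k, 5 * k + 1, 5 * k + 2} ∨ nat e = {5 * k, 5 * k + 2, 5 * k + 3} ∨
      nat e = {5 * k, 5 * k + 1, 5 * k + 3} ∨
      (5 * k + 9 < N ∧ nat e = {5 * k + 1, 5 * k + 4, 5 * k + 6})))

theorem mem_G {N : ℕ} (e : Finset (Fin N)) : e ∈ G N ↔ ∃ k : ℕ, 5 * k + 4 < N ∧
    (nat e = {5 * k, 5 * k + 1, 5 * k + 2} ∨ nat e = {5 * k, 5 * k + 2, 5 * k + 3} ∨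
      nat e = {5 * k, 5 * k + 1, 5 * k + 3} ∨
      (5 * k + 9 < N ∧ nat e = {5 * k + 1, 5 * k + 4, 5 * k + 6})) := by
  classical
  simp [G]

theorem nat_inj {N : ℕ} {e e' : Finset (Fin N)} (h : nat e = nat e') : e = e' :=
  Finset.map_injective _ h

theorem card3 {p q r : ℕ} (h1 : p ≠ q) (h2 : p ≠ r) (h3 : q ≠ r) :
    ({p, q, r} : Finset ℕ).card = 3 := by
  rw [Finset.card_insert_of_notMem (by simp [h1, h2]), Finset.card_insert_of_notMem (by simp [h3]),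
    Finset.card_singleton]

theorem G_card (N : ℕ) (e : Finset (Fin N)) (he : e ∈ G N) : e.card = 3 := by
  have h : e.card = (nat e).card := (Finset.card_map _).symm
  obtain ⟨k, _, h1 | h1 | h1 | ⟨_, h1⟩⟩ := (mem_G e).1 he <;> rw [h, h1] <;>
    exact card3 (by omega) (by omega) (by omega)

/-- product over a triple -/
theorem prod3 {N : ℕ} (e : Finset (Fin N)) {p q r : ℕ} (he : nat e = {p, q, r}) (h1 : p ≠ q)
    (h2 : p ≠ r) (h3 : q ≠ r) (f : ℕ → ℝ) : ∏ i ∈ e, f i = f p * f q * f r := by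
  have h : ∏ i ∈ e, f i = ∏ n ∈ nat e, f n := by
    unfold nat
    rw [Finset.prod_map]
    rfl
  rw [h, he, Finset.prod_insert (by simp [h1, h2]), Finset.prod_insert (by simp [h3]),
    Finset.prod_singleton, mul_assoc]

/-- a flip given by a predicate on the natural numbers -/
def flip (P : ℕ → Prop) [DecidablePred P] (N : ℕ) : Fin N → ℤˣ := fun i => if P i then -1 else 1

theorem spin_flip {N : ℕ} (P : ℕ → Prop) [DecidablePred P] (e : Finset (Fin N)) {p q r : ℕ}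
    (he : nat e = {p, q, r}) (h1 : p ≠ q) (h2 : p ≠ r) (h3 : q ≠ r) :
    spin (flip P N) e = (if P p then -1 else 1) * (if P q then -1 else 1) *
      (if P r then -1 else 1) := by
  rw [← prod3 e he h1 h2 h3 (fun n => if P n then (-1 : ℝ) else 1)]
  unfold spin flip
  refine Finset.prod_congr rfl fun i _ => ?_
  split_ifs <;> simp

theorem par_even {P Q R : Prop} [Decidable P] [Decidable Q] [Decidable R]
    (h : (¬ P ∧ ¬ Q ∧ ¬ R) ∨ (P ∧ Q ∧ ¬ R) ∨ (P ∧ ¬ Q ∧ R) ∨ (¬ P ∧ Q ∧ R)) :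
    (if P then (-1 : ℝ) else 1) * (if Q then -1 else 1) * (if R then -1 else 1) = 1 := by
  rcases h with ⟨h1, h2, h3⟩ | ⟨h1, h2, h3⟩ | ⟨h1, h2, h3⟩ | ⟨h1, h2, h3⟩ <;> simp [h1, h2, h3]

theorem par_odd {P Q R : Prop} [Decidable P] [Decidable Q] [Decidable R]
    (h : (P ∧ ¬ Q ∧ ¬ R) ∨ (¬ P ∧ Q ∧ ¬ R) ∨ (¬ P ∧ ¬ Q ∧ R) ∨ (P ∧ Q ∧ R)) :
    (if P then (-1 : ℝ) else 1) * (if Q then -1 else 1) * (if R then -1 else 1) = -1 := by
  rcases h with ⟨h1, h2, h3⟩ | ⟨h1, h2, h3⟩ | ⟨h1, h2, h3⟩ | ⟨h1, h2, h3⟩ <;> simp [h1, h2, h3]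

/-- parity conditions that make a predicate an invariance -/
theorem inv_of {N : ℕ} (P : ℕ → Prop) [DecidablePred P]
    (h1 : ∀ k, 5 * k + 4 < N → (¬ P (5 * k) ∧ ¬ P (5 * k + 1) ∧ ¬ P (5 * k + 2)) ∨
      (P (5 * k) ∧ P (5 * k + 1) ∧ ¬ P (5 * k + 2)) ∨ (P (5 * k) ∧ ¬ P (5 * k + 1) ∧ P (5 * k + 2))
      ∨ (¬ P (5 * k) ∧ P (5 * k + 1) ∧ P (5 * k + 2)))
    (h2 : ∀ k, 5 * k + 4 < N → (¬ P (5 * k) ∧ ¬ P (5 * k + 2) ∧ ¬ P (5 * k + 3)) ∨
      (P (5 * k) ∧ P (5 * k + 2) ∧ ¬ P (5 * k + 3)) ∨ (P (5 * k) ∧ ¬ P (5 * k + 2) ∧ P (5 * k + 3))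
      ∨ (¬ P (5 * k) ∧ P (5 * k + 2) ∧ P (5 * k + 3)))
    (h3 : ∀ k, 5 * k + 4 < N → (¬ P (5 * k) ∧ ¬ P (5 * k + 1) ∧ ¬ P (5 * k + 3)) ∨
      (P (5 * k) ∧ P (5 * k + 1) ∧ ¬ P (5 * k + 3)) ∨ (P (5 * k) ∧ ¬ P (5 * k + 1) ∧ P (5 * k + 3))
      ∨ (¬ P (5 * k) ∧ P (5 * k + 1) ∧ P (5 * k + 3)))
    (h4 : ∀ k, 5 * k + 9 < N → (¬ P (5 * k + 1) ∧ ¬ P (5 * k + 4) ∧ ¬ P (5 * k + 6)) ∨
      (P (5 * k + 1) ∧ P (5 * k + 4) ∧ ¬ P (5 * k + 6)) ∨
      (P (5 * k + 1) ∧ ¬ P (5 * k + 4) ∧ P (5 * k + 6))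
      ∨ (¬ P (5 * k + 1) ∧ P (5 * k + 4) ∧ P (5 * k + 6))) : Inv (G N) (flip P N) := by
  intro e he
  obtain ⟨k, hk, he1 | he1 | he1 | ⟨hk2, he1⟩⟩ := (mem_G e).1 he
  · rw [spin_flip P e he1 (by omega) (by omega) (by omega)]
    exact par_even (h1 k hk)
  · rw [spin_flip P e he1 (by omega) (by omega) (by omega)]
    exact par_even (h2 k hk)
  · rw [spin_flip P e he1 (by omega) (by omega) (by omega)]
    exact par_even (h3 k hk)
  · rw [spin_flip P e he1 (by omega) (by omega) (by omega)]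
    exact par_even (h4 k hk2)

/-- every vertex that is not the centre of a complete block is flipped by some invariance -/
theorem exists_inv {N : ℕ} (i : Fin N) (hi : ¬ ((i : ℕ) % 5 = 0 ∧ (i : ℕ) + 4 < N)) :
    ∃ x : Fin N → ℤˣ, Inv (G N) x ∧ x i = -1 := by
  by_cases hc : 5 * ((i : ℕ) / 5) + 4 < N
  · -- complete block
    set m := (i : ℕ) / 5 with hm
    refine ⟨flip (fun n => (5 * m < n ∧ n < 5 * m + 5) ∨ n + 1 = 5 * m) N, ?_, ?_⟩
    · refine inv_of _ ?_ ?_ ?_ ?_ <;> intro k hk <;> omega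
    · have : 5 * m < (i : ℕ) ∧ (i : ℕ) < 5 * m + 5 := by omega
      simp [flip, this]
  · -- isolated vertex
    refine ⟨flip (fun n => n = (i : ℕ)) N, ?_, by simp [flip]⟩
    refine inv_of _ ?_ ?_ ?_ ?_ <;> intro k hk <;> omega

/-- the three hyperedges of a block -/
theorem exists_edges {N : ℕ} (k : ℕ) (hk : 5 * k + 4 < N) : ∃ e1 e2 e3 : Finset (Fin N),
    nat e1 = {5 * k, 5 * k + 1, 5 * k + 2} ∧ nat e2 = {5 * k, 5 * k + 2, 5 * k + 3} ∧
    nat e3 = {5 * k, 5 * k + 1, 5 * k + 3} := by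
  refine ⟨{⟨5 * k, by omega⟩, ⟨5 * k + 1, by omega⟩, ⟨5 * k + 2, by omega⟩},
    {⟨5 * k, by omega⟩, ⟨5 * k + 2, by omega⟩, ⟨5 * k + 3, by omega⟩},
    {⟨5 * k, by omega⟩, ⟨5 * k + 1, by omega⟩, ⟨5 * k + 3, by omega⟩}, ?_, ?_, ?_⟩ <;>
    simp [nat]

theorem triple_ne {a b c a' b' c' : ℕ} (x : ℕ) (h : x = a ∨ x = b ∨ x = c)
    (h' : ¬ (x = a' ∨ x = b' ∨ x = c')) : ({a, b, c} : Finset ℕ) ≠ {a', b', c'} := by
  intro he
  have h1 : x ∈ ({a, b, c} : Finset ℕ) := by simpa using h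
  rw [he] at h1
  exact h' (by simpa using h1)

/-- a flip that changes only the first hyperedge of the block -/
theorem only1 {N : ℕ} (k : ℕ) (e1 : Finset (Fin N))
    (he1 : nat e1 = {5 * k, 5 * k + 1, 5 * k + 2}) : ∃ x : Fin N → ℤˣ, Only (G N) e1 x := by
  refine ⟨flip (fun n => n = 5 * k ∨ n = 5 * k + 3) N, ?_, ?_⟩
  · rw [spin_flip _ e1 he1 (by omega) (by omega) (by omega)]
    refine par_odd ?_
    omega
  · intro e he hne
    obtain ⟨m, hm, h | h | h | ⟨hm2, h⟩⟩ := (mem_G e).1 he <;>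
      rw [spin_flip _ e h (by omega) (by omega) (by omega)] <;> refine par_even ?_
    · have : m ≠ k := by
        rintro rfl
        exact hne (nat_inj (h.trans he1.symm))
      omega
    · omega
    · omega
    · omega

theorem only2 {N : ℕ} (k : ℕ) (e2 : Finset (Fin N))
    (he2 : nat e2 = {5 * k, 5 * k + 2, 5 * k + 3}) : ∃ x : Fin N → ℤˣ, Only (G N) e2 x := by
  refine ⟨flip (fun n => n = 5 * k ∨ n = 5 * k + 1 ∨ n = 5 * k + 4 ∨ n + 1 = 5 * k) N, ?_, ?_⟩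
  · rw [spin_flip _ e2 he2 (by omega) (by omega) (by omega)]
    refine par_odd ?_
    omega
  · intro e he hne
    obtain ⟨m, hm, h | h | h | ⟨hm2, h⟩⟩ := (mem_G e).1 he <;>
      rw [spin_flip _ e h (by omega) (by omega) (by omega)] <;> refine par_even ?_
    · omega
    · have : m ≠ k := by
        rintro rfl
        exact hne (nat_inj (h.trans he2.symm))
      omega
    · omega
    · omega

theorem only3 {N : ℕ} (k : ℕ) (e3 : Finset (Fin N))
    (he3 : nat e3 = {5 * k, 5 * k + 1, 5 * k + 3}) : ∃ x : Fin N → ℤˣ, Only (G N) e3 x := by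
  refine ⟨flip (fun n => n = 5 * k ∨ n = 5 * k + 2) N, ?_, ?_⟩
  · rw [spin_flip _ e3 he3 (by omega) (by omega) (by omega)]
    refine par_odd ?_
    omega
  · intro e he hne
    obtain ⟨m, hm, h | h | h | ⟨hm2, h⟩⟩ := (mem_G e).1 he <;>
      rw [spin_flip _ e h (by omega) (by omega) (by omega)] <;> refine par_even ?_
    · omega
    · omega
    · have : m ≠ k := by
        rintro rfl
        exact hne (nat_inj (h.trans he3.symm))
      omega
    · omega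

/-- the mean spin at the centre of a complete block -/
theorem mean_centre {N : ℕ} (i : Fin N) (h0 : (i : ℕ) % 5 = 0) (h4 : (i : ℕ) + 4 < N) :
    ∃ e1 e2 e3 : Finset (Fin N), e1 ≠ e2 ∧ e1 ≠ e3 ∧ e2 ≠ e3 ∧
      ∀ (β : ℝ≥0∞) (ρ : ℝ → ℝ) (J : Finset (Fin N) → ℝ),
        ∑ σ, gibbs β (ham (G N) ρ J) σ * ((σ i : ℤ) : ℝ) =
          free β (ρ (J e1)) * (free β (ρ (J e2)) * free β (ρ (J e3))) := by
  obtain ⟨k, hk⟩ : ∃ k, (i : ℕ) = 5 * k := ⟨(i : ℕ) / 5, by omega⟩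
  have hkN : 5 * k + 4 < N := by omega
  obtain ⟨e1, e2, e3, h1, h2, h3⟩ := exists_edges k hkN
  have m1 : e1 ∈ G N := (mem_G _).2 ⟨k, hkN, Or.inl h1⟩
  have m2 : e2 ∈ G N := (mem_G _).2 ⟨k, hkN, Or.inr (Or.inl h2)⟩
  have m3 : e3 ∈ G N := (mem_G _).2 ⟨k, hkN, Or.inr (Or.inr (Or.inl h3))⟩
  have n12 : e1 ≠ e2 := by
    rintro rfl
    rw [h1] at h2
    exact triple_ne (5 * k + 1) (by omega) (by omega) h2
  have n13 : e1 ≠ e3 := by
    rintro rfl
    rw [h1] at h3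
    exact triple_ne (5 * k + 2) (by omega) (by omega) h3
  have n23 : e2 ≠ e3 := by
    rintro rfl
    rw [h2] at h3
    exact triple_ne (5 * k + 2) (by omega) (by omega) h3
  refine ⟨e1, e2, e3, n12, n13, n23, fun β ρ J => ?_⟩
  obtain ⟨x1, hx1⟩ := only1 k e1 h1
  obtain ⟨x2, hx2⟩ := only2 k e2 h2
  obtain ⟨x3, hx3⟩ := only3 k e3 h3
  have hspin : ∀ σ : Fin N → ℤˣ, ((σ i : ℤ) : ℝ) = spin σ e1 * (spin σ e2 * (spin σ e3 * 1)) := by
    intro σ
    set f : ℕ → ℝ := fun n => if h : n < N then ((σ ⟨n, h⟩ : ℤ) : ℝ) else 1 with hf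
    have hfs : ∀ n, f n * f n = 1 := by
      intro n
      simp only [hf]
      split_ifs
      · exact unit_sq _
      · norm_num
    have hsp : ∀ (e : Finset (Fin N)) (p q r : ℕ), nat e = {p, q, r} → p ≠ q → p ≠ r → q ≠ r →
        spin σ e = f p * f q * f r := by
      intro e p q r he hpq hpr hqr
      rw [← prod3 e he hpq hpr hqr f]
      unfold spin
      refine Finset.prod_congr rfl fun j _ => ?_
      simp [hf]
    have hi : ((σ i : ℤ) : ℝ) = f (5 * k) := by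
      simp only [hf]
      rw [dif_pos (by omega)]
      congr 3
      exact Fin.ext hk
    rw [hi, hsp e1 _ _ _ h1 (by omega) (by omega) (by omega),
      hsp e2 _ _ _ h2 (by omega) (by omega) (by omega),
      hsp e3 _ _ _ h3 (by omega) (by omega) (by omega)]
    have a0 := hfs (5 * k)
    have a1 := hfs (5 * k + 1)
    have a2 := hfs (5 * k + 2)
    have a3 := hfs (5 * k + 3)
    have e : f (5 * k) * f (5 * k + 1) * f (5 * k + 2) *
        (f (5 * k) * f (5 * k + 2) * f (5 * k + 3) *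
        (f (5 * k) * f (5 * k + 1) * f (5 * k + 3) * 1)) =
        f (5 * k) * (f (5 * k) * f (5 * k)) * (f (5 * k + 1) * f (5 * k + 1)) *
          (f (5 * k + 2) * f (5 * k + 2)) * (f (5 * k + 3) * f (5 * k + 3)) := by ring
    rw [e, a0, a1, a2, a3]
    ring
  have i2 : ∀ σ : Fin N → ℤˣ, spin (x1 * σ) e2 * (spin (x1 * σ) e3 * 1) =
      spin σ e2 * (spin σ e3 * 1) := fun σ => by
    rw [spin_mul, spin_mul, hx1.2 e2 m2 n12.symm, hx1.2 e3 m3 n13.symm, one_mul, one_mul]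
  have i3 : ∀ σ : Fin N → ℤˣ, spin (x2 * σ) e3 * 1 = spin σ e3 * 1 := fun σ => by
    rw [spin_mul, hx2.2 e3 m3 n23.symm, one_mul]
  simp_rw [hspin]
  rw [mean_only m1 hx1 β ρ J (fun σ => spin σ e2 * (spin σ e3 * 1)) i2,
    mean_only m2 hx2 β ρ J (fun σ => spin σ e3 * 1) i3,
    mean_only m3 hx3 β ρ J (fun _ => 1) (fun _ => rfl)]
  simp only [mul_one]
  rw [gibbs_sum, mul_one]

/-! ### growth -/

theorem blk_edge {N : ℕ} {e : Finset (Fin N)} (he : e ∈ G N) {u w : Fin N} (hu : u ∈ e)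
    (hw : w ∈ e) : (u : ℕ) / 5 ≤ (w : ℕ) / 5 + 1 := by
  have hu' : (u : ℕ) ∈ nat e := Finset.mem_map.2 ⟨u, hu, rfl⟩
  have hw' : (w : ℕ) ∈ nat e := Finset.mem_map.2 ⟨w, hw, rfl⟩
  obtain ⟨k, _, h | h | h | ⟨_, h⟩⟩ := (mem_G e).1 he <;> rw [h] at hu' hw' <;>
    simp only [Finset.mem_insert, Finset.mem_singleton] at hu' hw' <;> omega

theorem blk_chain {N : ℕ} (l : List (Finset (Fin N))) : ∀ (h : l ≠ []), (∀ e ∈ l, e ∈ G N) →
    l.IsChain (fun e e' => (e ∩ e').Nonempty) → ∀ v ∈ l.head h, ∀ w ∈ l.getLast h,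
    (v : ℕ) / 5 ≤ (w : ℕ) / 5 + l.length ∧ (w : ℕ) / 5 ≤ (v : ℕ) / 5 + l.length := by
  induction l with
  | nil => intro h; exact absurd rfl h
  | cons e l ih =>
    intro h hG hc v hv w hw
    cases l with
    | nil =>
      have hv' : v ∈ e := hv
      have hw' : w ∈ e := hw
      have he := hG e (by simp)
      exact ⟨blk_edge he hv' hw', blk_edge he hw' hv'⟩
    | cons e' l =>
      have hv' : v ∈ e := hv
      have he := hG e (by simp)
      rw [List.isChain_cons_cons] at hc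
      obtain ⟨u, hu⟩ := hc.1
      rw [Finset.mem_inter] at hu
      have h2 := ih (by simp) (fun f hf => hG f (List.mem_cons_of_mem _ hf)) hc.2 u hu.2 w
        (by simpa using hw)
      have h3 := blk_edge he hv' hu.1
      have h4 := blk_edge he hu.1 hv'
      simp only [List.length_cons] at h2 ⊢
      omega

theorem ball_subset {N : ℕ} (i : Fin N) (r : ℕ) : ball (G N) r i ⊆
    {w : Fin N | (w : ℕ) / 5 ≤ (i : ℕ) / 5 + r ∧ (i : ℕ) / 5 ≤ (w : ℕ) / 5 + r} := by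
  rintro w (rfl | ⟨l, h, hl, hG, hc, hv, hw⟩)
  · exact ⟨by omega, by omega⟩
  · have := blk_chain l h hG hc i hv w hw
    exact ⟨by omega, by omega⟩

theorem growth : PolynomialGrowth G := by
  refine ⟨15, 1, by norm_num, by norm_num, fun N i r hr => ?_⟩
  rw [Real.rpow_one]
  have h1 : (ball (G N) r i).ncard ≤ 5 * (2 * r + 1) := by
    have h2 : ((fun w : Fin N => (w : ℕ)) '' ball (G N) r i) ⊆
        (Finset.Ico (5 * ((i : ℕ) / 5 - r)) (5 * ((i : ℕ) / 5 + r + 1)) : Finset ℕ) := by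
      rintro n ⟨w, hw, rfl⟩
      have := ball_subset i r hw
      simp only [Set.mem_ofPred_eq] at this
      simp only [Finset.coe_Ico, Set.mem_Ico]
      omega
    rw [← Set.ncard_image_of_injective _ Fin.val_injective]
    refine (Set.ncard_le_ncard h2 (Finset.finite_toSet _)).trans ?_
    rw [Set.ncard_coe_finset, Nat.card_Ico]
    omega
  have h2 : ((ball (G N) r i).ncard : ℝ) ≤ ((5 * (2 * r + 1) : ℕ) : ℝ) := by exact_mod_cast h1
  have h3 : (1 : ℝ) ≤ r := by exact_mod_cast hr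
  push_cast at h2
  linarith

end Q289.Chaos
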