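import Pool.Agent.Q289.Chaos.Corr

/-!
# Site disorder chaos on 3-uniform hypergraphs: the lower bound
-/

set_option autoImplicit false

open MeasureTheory ProbabilityTheory Filter
open scoped ENNReal NNReal

namespace Q289.Chaos

theorem free_zero_iff {β : ℝ≥0∞} (hβ : β ≠ 0) (r : ℝ) : free β r = 0 ↔ r = 0 := by
  unfold free
  by_cases h : β = ∞
  · rw [if_pos h]
    rcases lt_trichotomy r 0 with h1 | h1 | h1
    · rw [sign_neg h1]; simp [h1.ne]
    · rw [h1]; simp
    · rw [sign_pos h1]; simp [h1.ne']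
  · rw [if_neg h, Real.tanh_eq_sinh_div_cosh, div_eq_zero_iff, or_iff_left (Real.cosh_pos _).ne',
      Real.sinh_eq_zero, mul_eq_zero, or_iff_right]
    exact (ENNReal.toReal_pos hβ h).ne'

theorem free_meas (β : ℝ≥0∞) : Measurable (free β) := by
  by_cases h : β = ∞
  · have e : free β = fun r : ℝ => if 0 < r then (1 : ℝ) else if r < 0 then -1 else 0 := by
      funext r
      unfold free
      rw [if_pos h]
      rcases lt_trichotomy r 0 with h1 | h1 | h1
      · rw [sign_neg h1, if_neg (by linarith), if_pos h1]; simp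
      · rw [h1]; simp
      · rw [sign_pos h1, if_pos h1]; simp
    rw [e]
    exact Measurable.ite measurableSet_Ioi measurable_const
      (Measurable.ite measurableSet_Iio measurable_const measurable_const)
  · have e : free β = fun r : ℝ => Real.sinh (β.toReal * r) / Real.cosh (β.toReal * r) := by
      funext r
      unfold free
      rw [if_neg h, Real.tanh_eq_sinh_div_cosh]
    rw [e]
    fun_prop

theorem good_of {ρ : ℝ → ℝ} (hm : Measurable ρ) (ho : ∀ x, ρ (-x) = -ρ x)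
    (hn : ∀ x, 0 < x → 0 ≤ ρ x) (h0 : ¬ ρ =ᵐ[volume] 0) {β : ℝ≥0∞} (hβ : β ≠ 0) :
    Good (fun x => free β (ρ x)) := by
  refine ⟨?_, ?_, ?_, ?_, ?_⟩
  · exact (free_meas β).comp hm
  · intro x
    unfold free
    by_cases h : β = ∞
    · simp only [h, if_true]
      rcases lt_trichotomy (ρ x) 0 with h1 | h1 | h1
      · rw [sign_neg h1]; simp
      · rw [h1]; simp
      · rw [sign_pos h1]; simp
    · simp only [h, if_false]
      exact (Real.abs_tanh_lt_one _).le
  · intro x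
    unfold free
    rw [ho]
    by_cases h : β = ∞
    · simp only [h, if_true]
      rcases lt_trichotomy (ρ x) 0 with h1 | h1 | h1
      · rw [sign_neg h1, sign_pos (by linarith)]; simp
      · rw [h1]; simp
      · rw [sign_pos h1, sign_neg (by linarith)]; simp
    · simp only [h, if_false]
      rw [mul_neg, Real.tanh_neg]
  · intro x hx
    have h1 := hn x hx
    unfold free
    by_cases h : β = ∞
    · simp only [h, if_true]
      rcases h1.eq_or_lt with h1 | h1
      · rw [← h1]; simp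
      · rw [sign_pos h1]; simp
    · simp only [h, if_false]
      rw [Real.tanh_eq_sinh_div_cosh]
      exact div_nonneg (Real.sinh_nonneg_iff.2 (mul_nonneg ENNReal.toReal_nonneg h1))
        (Real.cosh_pos _).le
  · rw [pos_iff_ne_zero]
    intro h1
    apply h0
    rw [Filter.EventuallyEq, ae_iff]
    refine measure_mono_null ?_ h1
    intro x hx
    simp only [Set.mem_ofPred_eq, Pi.zero_apply] at hx ⊢
    rwa [Ne, free_zero_iff hβ]

variable {N : ℕ}

theorem spin_abs {V : Type} (σ : V → ℤˣ) (e : Finset V) : |spin σ e| = 1 := by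
  rcases spin_pm σ e with h | h <;> rw [h] <;> simp

theorem ham_meas {V : Type} (E : Finset (Finset V)) {ρ : ℝ → ℝ} (hρ : Measurable ρ)
    {Ω : Type} [MeasurableSpace Ω] (J : Ω → Finset V → ℝ) (hJ : ∀ e, Measurable (fun ω => J ω e))
    (σ : V → ℤˣ) : Measurable (fun ω => ham E ρ (J ω) σ) := by
  unfold ham
  exact Finset.measurable_sum _ fun e _ => (hρ.comp (hJ e)).mul_const _

theorem gibbs_meas (β : ℝ≥0∞) (E : Finset (Finset (Fin N))) {ρ : ℝ → ℝ} (hρ : Measurable ρ)
    {Ω : Type} [MeasurableSpace Ω] (J : Ω → Finset (Fin N) → ℝ)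
    (hJ : ∀ e, Measurable (fun ω => J ω e)) (σ : Fin N → ℤˣ) :
    Measurable (fun ω => gibbs β (ham E ρ (J ω)) σ) := by
  classical
  have hH := ham_meas E hρ J hJ
  have hset : ∀ σ', MeasurableSet {ω | ∀ τ, ham E ρ (J ω) τ ≤ ham E ρ (J ω) σ'} := by
    intro σ'
    have : {ω | ∀ τ, ham E ρ (J ω) τ ≤ ham E ρ (J ω) σ'} =
        ⋂ τ, {ω | ham E ρ (J ω) τ ≤ ham E ρ (J ω) σ'} := by
      ext ω; simp
    rw [this]
    exact MeasurableSet.iInter fun τ => measurableSet_le (hH τ) (hH σ')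
  unfold gibbs
  by_cases h : β = ∞
  · simp only [h, if_true]
    refine Measurable.ite (hset σ) ?_ measurable_const
    have e : ∀ ω, ((Finset.univ.filter (fun σ' : Fin N → ℤˣ =>
        ∀ τ, ham E ρ (J ω) τ ≤ ham E ρ (J ω) σ')).card : ℝ) =
        ∑ σ' : Fin N → ℤˣ, if (∀ τ, ham E ρ (J ω) τ ≤ ham E ρ (J ω) σ') then (1 : ℝ) else 0 := by
      intro ω
      rw [Finset.sum_boole]
    simp_rw [e]
    refine Measurable.div measurable_const ?_
    exact Finset.measurable_sum _ fun σ' _ => Measurable.ite (hset σ') measurable_const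
      measurable_const
  · simp only [h, if_false]
    exact Measurable.div ((hH σ).const_mul _).exp
      (Finset.measurable_sum _ fun τ _ => ((hH τ).const_mul _).exp)

theorem gibbs_le (β : ℝ≥0∞) (H : (Fin N → ℤˣ) → ℝ) (σ : Fin N → ℤˣ) : gibbs β H σ ≤ 1 := by
  rw [← gibbs_sum β H]
  exact Finset.single_le_sum (fun τ _ => gibbs_nonneg β H τ) (Finset.mem_univ σ)

theorem overlap_abs (σ τ : Fin N → ℤˣ) : |overlap σ τ| ≤ 1 := by
  unfold overlap
  rw [abs_div, Nat.abs_cast]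
  refine div_le_one_of_le₀ ?_ (Nat.cast_nonneg N)
  refine (Finset.abs_sum_le_sum_abs _ _).trans ?_
  have : ∀ i ∈ (Finset.univ : Finset (Fin N)), |((σ i : ℤ) : ℝ) * ((τ i : ℤ) : ℝ)| ≤ 1 := by
    intro i _
    rcases unit_pm (σ i) with h | h <;> rcases unit_pm (τ i) with h' | h' <;> rw [h, h'] <;> norm_num
  refine (Finset.sum_le_sum this).trans ?_
  simp

/-- average of a function of two configurations -/
noncomputable def avg (E : Finset (Finset (Fin N))) (ρ : ℝ → ℝ) (κ : Kind) (t : ℝ) (β : ℝ≥0∞)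
    (f : (Fin N → ℤˣ) → (Fin N → ℤˣ) → ℝ) (ω : Finset (Fin N) → ℝ × ℝ × Bool) : ℝ :=
  ∑ σ, ∑ τ, gibbs β (ham E ρ (fun e => (ω e).1)) σ *
      gibbs β (ham E ρ (fun e => perturb κ t (ω e))) τ * f σ τ

theorem avg_meas (E : Finset (Finset (Fin N))) {ρ : ℝ → ℝ} (hρ : Measurable ρ) (κ : Kind) (t : ℝ)
    (β : ℝ≥0∞) (f : (Fin N → ℤˣ) → (Fin N → ℤˣ) → ℝ) : Measurable (avg E ρ κ t β f) := by
  unfold avg
  refine Finset.measurable_sum _ fun σ _ => Finset.measurable_sum _ fun τ _ => ?_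
  refine Measurable.mul_const ?_ _
  refine Measurable.mul ?_ ?_
  · exact gibbs_meas β E hρ _ (fun e => measurable_fst.comp (measurable_pi_apply e)) σ
  · exact gibbs_meas β E hρ _ (fun e => (perturb_meas κ t).comp (measurable_pi_apply e)) τ

theorem avg_const (E : Finset (Finset (Fin N))) (ρ : ℝ → ℝ) (κ : Kind) (t : ℝ) (β : ℝ≥0∞)
    (c : ℝ) (ω : Finset (Fin N) → ℝ × ℝ × Bool) : avg E ρ κ t β (fun _ _ => c) ω = c := by
  unfold avg
  simp_rw [← Finset.sum_mul, ← Finset.mul_sum]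
  rw [gibbs_sum]
  simp_rw [mul_one]
  rw [gibbs_sum, one_mul]

theorem avg_mono (E : Finset (Finset (Fin N))) (ρ : ℝ → ℝ) (κ : Kind) (t : ℝ) (β : ℝ≥0∞)
    {f g : (Fin N → ℤˣ) → (Fin N → ℤˣ) → ℝ} (h : ∀ σ τ, f σ τ ≤ g σ τ)
    (ω : Finset (Fin N) → ℝ × ℝ × Bool) : avg E ρ κ t β f ω ≤ avg E ρ κ t β g ω := by
  unfold avg
  refine Finset.sum_le_sum fun σ _ => Finset.sum_le_sum fun τ _ => ?_
  exact mul_le_mul_of_nonneg_left (h σ τ) (mul_nonneg (gibbs_nonneg _ _ _) (gibbs_nonneg _ _ _))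

theorem avg_abs (E : Finset (Finset (Fin N))) (ρ : ℝ → ℝ) (κ : Kind) (t : ℝ) (β : ℝ≥0∞)
    {f : (Fin N → ℤˣ) → (Fin N → ℤˣ) → ℝ} (h : ∀ σ τ, |f σ τ| ≤ 1)
    (ω : Finset (Fin N) → ℝ × ℝ × Bool) : |avg E ρ κ t β f ω| ≤ 1 := by
  rw [abs_le]
  constructor
  · rw [← avg_const E ρ κ t β (-1) ω]
    exact avg_mono E ρ κ t β (fun σ τ => (abs_le.1 (h σ τ)).1) ω
  · conv_rhs => rw [← avg_const E ρ κ t β 1 ω]
    exact avg_mono E ρ κ t β (fun σ τ => (abs_le.1 (h σ τ)).2) ω

theorem avg_int (E : Finset (Finset (Fin N))) {ρ : ℝ → ℝ} (hρ : Measurable ρ) (κ : Kind) (t : ℝ)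
    (ht : 0 ≤ t) (β : ℝ≥0∞) {f : (Fin N → ℤˣ) → (Fin N → ℤˣ) → ℝ} (h : ∀ σ τ, |f σ τ| ≤ 1) :
    Integrable (avg E ρ κ t β f) (Measure.pi fun _ => edgeLaw t) := by
  have := edgeLaw_prob t ht
  exact Integrable.of_bound (avg_meas E hρ κ t β f).aestronglyMeasurable 1
    (Eventually.of_forall fun ω => avg_abs E ρ κ t β h ω)

/-- the Gibbs average of the overlap in terms of the mean spins -/
theorem avg_overlap (E : Finset (Finset (Fin N))) (ρ : ℝ → ℝ) (κ : Kind) (t : ℝ) (β : ℝ≥0∞)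
    (ω : Finset (Fin N) → ℝ × ℝ × Bool) : avg E ρ κ t β overlap ω =
      (∑ i, (∑ σ, gibbs β (ham E ρ (fun e => (ω e).1)) σ * ((σ i : ℤ) : ℝ)) *
        (∑ τ, gibbs β (ham E ρ (fun e => perturb κ t (ω e))) τ * ((τ i : ℤ) : ℝ))) / N := by
  unfold avg overlap
  simp_rw [← mul_div_assoc, ← Finset.sum_div]
  congr 1
  simp_rw [Finset.mul_sum]
  have h1 : ∀ σ : Fin N → ℤˣ, ∑ τ, ∑ i, gibbs β (ham E ρ (fun e => (ω e).1)) σ *
      gibbs β (ham E ρ (fun e => perturb κ t (ω e))) τ * (((σ i : ℤ) : ℝ) * ((τ i : ℤ) : ℝ)) =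
      ∑ i, ∑ τ, gibbs β (ham E ρ (fun e => (ω e).1)) σ *
      gibbs β (ham E ρ (fun e => perturb κ t (ω e))) τ * (((σ i : ℤ) : ℝ) * ((τ i : ℤ) : ℝ)) :=
    fun σ => Finset.sum_comm
  rw [Finset.sum_congr rfl (fun σ _ => h1 σ), Finset.sum_comm]
  refine Finset.sum_congr rfl fun i _ => ?_
  rw [Finset.sum_comm]
  refine Finset.sum_congr rfl fun τ _ => ?_
  rw [Finset.sum_mul]
  refine Finset.sum_congr rfl fun σ _ => ?_
  ring

/-- the expectation of the product of the means at the centre of a block -/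
theorem centre_exp {ρ : ℝ → ℝ} {β : ℝ≥0∞} (κ : Kind) (t : ℝ) (ht : 0 ≤ t)
    (e1 e2 e3 : Finset (Fin N)) (h12 : e1 ≠ e2) (h13 : e1 ≠ e3)
    (h23 : e2 ≠ e3) :
    ∫ ω : Finset (Fin N) → ℝ × ℝ × Bool,
      (free β (ρ (ω e1).1) * (free β (ρ (ω e2).1) * free β (ρ (ω e3).1))) *
      (free β (ρ (perturb κ t (ω e1))) * (free β (ρ (perturb κ t (ω e2))) *
        free β (ρ (perturb κ t (ω e3))))) ∂(Measure.pi fun _ => edgeLaw t) =
      (kap (fun x => free β (ρ x)) κ t) ^ 3 := by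
  have hprob := edgeLaw_prob t ht
  classical
  set q : ℝ → ℝ := fun x => free β (ρ x) with hq
  set S : Finset (Finset (Fin N)) := {e1, e2, e3} with hS
  have e : ∀ ω : Finset (Fin N) → ℝ × ℝ × Bool,
      (free β (ρ (ω e1).1) * (free β (ρ (ω e2).1) * free β (ρ (ω e3).1))) *
      (free β (ρ (perturb κ t (ω e1))) * (free β (ρ (perturb κ t (ω e2))) *
        free β (ρ (perturb κ t (ω e3))))) =
      ∏ e, (fun x : ℝ × ℝ × Bool => if e ∈ S then q x.1 * q (perturb κ t x) else 1) (ω e) := by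
    intro ω
    simp only
    rw [Finset.prod_ite_mem, Finset.univ_inter, hS, Finset.prod_insert (by simp [h12, h13]),
      Finset.prod_insert (by simp [h23]), Finset.prod_singleton]
    simp only [hq]
    ring
  simp_rw [e]
  rw [integral_fintype_prod_eq_prod (μ := fun _ => edgeLaw t)
    (f := fun (e : Finset (Fin N)) (x : ℝ × ℝ × Bool) =>
      if e ∈ S then q x.1 * q (perturb κ t x) else 1)]
  have e2 : ∀ e : Finset (Fin N), ∫ x, (if e ∈ S then q x.1 * q (perturb κ t x) else 1)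
      ∂(edgeLaw t) = if e ∈ S then kap q κ t else 1 := by
    intro e
    by_cases he : e ∈ S
    · simp only [he, if_true]; rfl
    · simp only [he, if_false]; simp
  simp_rw [e2]
  rw [Finset.prod_ite_mem, Finset.univ_inter, Finset.prod_const]
  congr 1
  rw [hS, Finset.card_insert_of_notMem (by simp [h12, h13]),
    Finset.card_insert_of_notMem (by simp [h23]), Finset.card_singleton]

/-- the number of complete blocks -/
theorem centres (hN : 5 ≤ N) : (1 / 25 : ℝ) ≤
    ((Finset.univ.filter (fun i : Fin N => (i : ℕ) % 5 = 0 ∧ (i : ℕ) + 4 < N)).card : ℝ) / N := by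
  have h1 : N / 5 ≤ (Finset.univ.filter
      (fun i : Fin N => (i : ℕ) % 5 = 0 ∧ (i : ℕ) + 4 < N)).card := by
    have : (Finset.univ : Finset (Fin (N / 5))).card ≤ _ :=
      Finset.card_le_card_of_injOn (t := Finset.univ.filter
      (fun i : Fin N => (i : ℕ) % 5 = 0 ∧ (i : ℕ) + 4 < N))
        (fun k : Fin (N / 5) => (⟨5 * (k : ℕ), by omega⟩ : Fin N))
        (by
          intro k _
          simp only [Finset.coe_filter, Finset.mem_univ, true_and, Set.mem_ofPred_eq]
          omega)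
        (by
          intro a _ b _ hab
          simp only [Fin.mk.injEq] at hab
          exact Fin.ext (by omega))
    simpa using this
  have h2 : N ≤ 25 * (Finset.univ.filter
      (fun i : Fin N => (i : ℕ) % 5 = 0 ∧ (i : ℕ) + 4 < N)).card := by omega
  have h3 : (N : ℝ) ≤ 25 * ((Finset.univ.filter
      (fun i : Fin N => (i : ℕ) % 5 = 0 ∧ (i : ℕ) + 4 < N)).card : ℝ) := by exact_mod_cast h2
  have hN' : (0 : ℝ) < N := by
    have : 0 < N := by omega
    exact_mod_cast this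
  rw [le_div_iff₀ hN']
  linarith

theorem main {ρ : ℝ → ℝ} (hρ : Measurable ρ) {β : ℝ≥0∞} (κ : Kind) (t : ℝ) (ht : 0 ≤ t)
    (h : Good (fun x => free β (ρ x))) (hN : 5 ≤ N) :
    ((kap (fun x => free β (ρ x)) κ t) ^ 3 / 25) ^ 2 ≤ meanSq (G N) ρ κ t β := by
  classical
  have hprob := edgeLaw_prob t ht
  have hkap := kap_pos h κ t ht
  set k := kap (fun x => free β (ρ x)) κ t with hk
  set c : ℝ := k ^ 3 / 25 with hc
  have hc0 : 0 < c := by positivity
  -- the mean overlap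
  have hmean : c ≤ ∫ ω, avg (G N) ρ κ t β overlap ω ∂(Measure.pi fun _ => edgeLaw t) := by
    simp_rw [avg_overlap]
    rw [integral_div]
    set M : Fin N → (Finset (Fin N) → ℝ × ℝ × Bool) → ℝ := fun i ω =>
      (∑ σ, gibbs β (ham (G N) ρ (fun e => (ω e).1)) σ * ((σ i : ℤ) : ℝ)) *
        (∑ τ, gibbs β (ham (G N) ρ (fun e => perturb κ t (ω e))) τ * ((τ i : ℤ) : ℝ)) with hM
    have hMi : ∀ i, Integrable (M i) (Measure.pi fun _ => edgeLaw t) := by
      intro i
      have := avg_int (G N) hρ κ t ht β (f := fun σ τ => ((σ i : ℤ) : ℝ) * ((τ i : ℤ) : ℝ))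
        (fun σ τ => by
          rcases unit_pm (σ i) with h | h <;> rcases unit_pm (τ i) with h' | h' <;>
            rw [h, h'] <;> norm_num)
      refine this.congr (Eventually.of_forall fun ω => ?_)
      simp only [avg, hM]
      rw [Finset.sum_mul_sum]
      refine Finset.sum_congr rfl fun σ _ => Finset.sum_congr rfl fun τ _ => ?_
      ring
    have hcentre : ∀ i : Fin N, ((i : ℕ) % 5 = 0 ∧ (i : ℕ) + 4 < N) →
        ∫ ω, M i ω ∂(Measure.pi fun _ => edgeLaw t) = k ^ 3 := by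
      rintro i ⟨h0, h4⟩
      obtain ⟨e1, e2, e3, h12, h13, h23, hm⟩ := mean_centre i h0 h4
      rw [← centre_exp κ t ht e1 e2 e3 h12 h13 h23]
      refine integral_congr_ae (Eventually.of_forall fun ω => ?_)
      simp only [hM]
      rw [hm, hm]
    have hother : ∀ i : Fin N, ¬ ((i : ℕ) % 5 = 0 ∧ (i : ℕ) + 4 < N) →
        ∫ ω, M i ω ∂(Measure.pi fun _ => edgeLaw t) = 0 := by
      intro i hi
      obtain ⟨x, hx, hxi⟩ := exists_inv i hi
      have : ∀ ω, M i ω = 0 := by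
        intro ω
        simp only [hM]
        rw [mean_zero hx β ρ _ i hxi, zero_mul]
      simp_rw [this]
      simp
    have hsum : ∫ ω, ∑ i, M i ω ∂(Measure.pi fun _ => edgeLaw t) =
        ((Finset.univ.filter (fun i : Fin N => (i : ℕ) % 5 = 0 ∧ (i : ℕ) + 4 < N)).card : ℝ) *
          k ^ 3 := by
      rw [integral_finsetSum _ (fun i _ => hMi i)]
      have : ∀ i ∈ (Finset.univ : Finset (Fin N)), ∫ ω, M i ω ∂(Measure.pi fun _ => edgeLaw t) =
          if ((i : ℕ) % 5 = 0 ∧ (i : ℕ) + 4 < N) then k ^ 3 else 0 := by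
        intro i _
        split_ifs with hi
        · exact hcentre i hi
        · exact hother i hi
      rw [Finset.sum_congr rfl this, ← Finset.sum_filter, Finset.sum_const, nsmul_eq_mul]
    have hgoal : ∫ ω, ∑ i, M i ω ∂(Measure.pi fun _ => edgeLaw t) =
        ∫ ω, ∑ i, (∑ σ, gibbs β (ham (G N) ρ (fun e => (ω e).1)) σ * ((σ i : ℤ) : ℝ)) *
        (∑ τ, gibbs β (ham (G N) ρ (fun e => perturb κ t (ω e))) τ * ((τ i : ℤ) : ℝ))
        ∂(Measure.pi fun _ => edgeLaw t) := rfl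
    rw [← hgoal, hsum]
    have h1 := centres hN
    have h2 : 0 < k ^ 3 := by positivity
    rw [hc]
    calc k ^ 3 / 25 = k ^ 3 * (1 / 25) := by ring
      _ ≤ k ^ 3 * (((Finset.univ.filter
          (fun i : Fin N => (i : ℕ) % 5 = 0 ∧ (i : ℕ) + 4 < N)).card : ℝ) / N) :=
          mul_le_mul_of_nonneg_left h1 h2.le
      _ = _ := by ring
  -- from the first to the second moment
  have hpt : ∀ ω, 2 * c * avg (G N) ρ κ t β overlap ω - c ^ 2 ≤
      avg (G N) ρ κ t β (fun σ τ => (overlap σ τ) ^ 2) ω := by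
    intro ω
    have e1 : 2 * c * avg (G N) ρ κ t β overlap ω - avg (G N) ρ κ t β (fun _ _ => c ^ 2) ω =
        avg (G N) ρ κ t β (fun σ τ => 2 * c * overlap σ τ - c ^ 2) ω := by
      unfold avg
      rw [Finset.mul_sum, ← Finset.sum_sub_distrib]
      refine Finset.sum_congr rfl fun σ _ => ?_
      rw [Finset.mul_sum, ← Finset.sum_sub_distrib]
      refine Finset.sum_congr rfl fun τ _ => ?_
      ring
    rw [avg_const] at e1
    rw [e1]
    refine avg_mono _ _ _ _ _ (fun σ τ => ?_) ω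
    nlinarith [sq_nonneg (overlap σ τ - c)]
  have hi1 := avg_int (G N) hρ κ t ht β (f := overlap) overlap_abs
  have hi2 := avg_int (G N) hρ κ t ht β (f := fun σ τ => (overlap σ τ) ^ 2) (fun σ τ => by
    rw [abs_pow]
    exact pow_le_one₀ (abs_nonneg _) (overlap_abs σ τ))
  have h3 : ∫ ω, (2 * c * avg (G N) ρ κ t β overlap ω - c ^ 2) ∂(Measure.pi fun _ => edgeLaw t) ≤
      ∫ ω, avg (G N) ρ κ t β (fun σ τ => (overlap σ τ) ^ 2) ω
      ∂(Measure.pi fun _ => edgeLaw t) :=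
    integral_mono ((hi1.const_mul _).sub (integrable_const _)) hi2 hpt
  rw [integral_sub (hi1.const_mul _) (integrable_const _), integral_const_mul] at h3
  have h4 : meanSq (G N) ρ κ t β = ∫ ω, avg (G N) ρ κ t β (fun σ τ => (overlap σ τ) ^ 2) ω
      ∂(Measure.pi fun _ => edgeLaw t) := rfl
  rw [h4]
  refine le_trans ?_ h3
  simp only [integral_const, probReal_univ, smul_eq_mul, one_mul]
  nlinarith

end Q289.Chaos
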